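import Pool.Agent.J4H56.HT.Stm

/-!
# Project HT: piece (F1), the Franks series
-/

set_option autoImplicit false

open Filter Topology Set

universe w

namespace Pool.Agent.J4H55.HT

open Pool.Agent.J4H56.HT

/-- `mv A` as a continuous linear map -/
noncomputable def mvL {k : ℕ} (A : Matrix (Fin k) (Fin k) ℤ) :
    (Fin k → ℝ) →L[ℝ] (Fin k → ℝ) :=
  LinearMap.toContinuousLinearMap
    { toFun := mv A
      map_add' := fun v v' => by
        funext i
        show ∑ j, (A i j : ℝ) * (v j + v' j) = ∑ j, (A i j : ℝ) * v j + ∑ j, (A i j : ℝ) * v' j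
        rw [← Finset.sum_add_distrib]
        exact Finset.sum_congr rfl fun j _ => by ring
      map_smul' := fun c v => by
        funext i
        show ∑ j, (A i j : ℝ) * (c * v j) = c * ∑ j, (A i j : ℝ) * v j
        rw [Finset.mul_sum]
        exact Finset.sum_congr rfl fun j _ => by ring }

theorem mvL_apply {k : ℕ} (A : Matrix (Fin k) (Fin k) ℤ) (v : Fin k → ℝ) : mvL A v = mv A v := rfl

theorem mvL_iter {k : ℕ} (A : Matrix (Fin k) (Fin k) ℤ) (n : ℕ) (v : Fin k → ℝ) :
    (mvL A ^ n) v = (mv A)^[n] v := by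
  induction n with
  | zero => rfl
  | succ n ih =>
    rw [pow_succ', ContinuousLinearMap.mul_apply, ih, Function.iterate_succ_apply', mvL_apply]

theorem mv_mv {k : ℕ} {A B : Matrix (Fin k) (Fin k) ℤ} (h : A * B = 1) (v : Fin k → ℝ) :
    mv A (mv B v) = v := by
  funext i
  show ∑ j, (A i j : ℝ) * ∑ m, (B j m : ℝ) * v m = v i
  have h2 : ∑ j, (A i j : ℝ) * ∑ m, (B j m : ℝ) * v m =
      ∑ m, ((∑ j, A i j * B j m : ℤ) : ℝ) * v m := by
    simp only [Finset.mul_sum, Int.cast_sum, Int.cast_mul, Finset.sum_mul]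
    rw [Finset.sum_comm]
    exact Finset.sum_congr rfl fun j _ => Finset.sum_congr rfl fun m _ => by ring
  have h3 : ∀ m, ∑ j, A i j * B j m = (1 : Matrix (Fin k) (Fin k) ℤ) i m := fun m => by
    rw [← h]
    rfl
  rw [h2]
  simp only [h3, Matrix.one_apply, Int.cast_ite, Int.cast_one, Int.cast_zero, ite_mul, one_mul,
    zero_mul, Finset.sum_ite_eq, Finset.mem_univ, if_true]

theorem t_F1 : S_F1.{w} := by
  intro k A A' hA X _ _ f e he
  obtain ⟨C, l, hC, hl, hl1, -, -, S, U, hSU, hS, hU⟩ := hA.ex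
  have hC0 : 0 ≤ C := zero_le_one.trans hC
  obtain ⟨B, hB⟩ : ∃ B, ∀ x, ‖e x‖ ≤ B := by
    obtain ⟨B, hB⟩ := (isCompact_range he).isBounded.exists_norm_le
    exact ⟨B, fun x => hB _ (mem_range_self x)⟩
  have hfn : ∀ n, Continuous (f^[n] : X → X) := fun n => f.continuous.iterate n
  have hgn : ∀ n, Continuous (f.symm^[n] : X → X) := fun n => f.symm.continuous.iterate n
  let g1 : ℕ → X → Fin k → ℝ := fun n x => (mvL A' ^ (n + 1)) (U (e (f^[n] x)))
  let g2 : ℕ → X → Fin k → ℝ := fun n x => (mvL A ^ n) (S (e (f.symm^[n + 1] x)))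
  have hsum : Summable fun n : ℕ => C * B * l ^ n :=
    (summable_geometric_of_lt_one hl.le hl1).mul_left _
  have hc1 : ∀ n, Continuous (g1 n) := fun n =>
    (mvL A' ^ (n + 1)).continuous.comp (U.continuous.comp (he.comp (hfn n)))
  have hc2 : ∀ n, Continuous (g2 n) := fun n =>
    (mvL A ^ n).continuous.comp (S.continuous.comp (he.comp (hgn (n + 1))))
  have hb1 : ∀ n x, ‖g1 n x‖ ≤ C * B * l ^ n := fun n x => by
    show ‖(mvL A' ^ (n + 1)) (U (e (f^[n] x)))‖ ≤ _
    rw [mvL_iter]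
    refine (hU (n + 1) _).trans ?_
    have hB0 : 0 ≤ B := (norm_nonneg _).trans (hB x)
    calc C * l ^ (n + 1) * ‖e (f^[n] x)‖ ≤ C * l ^ n * B := by
          refine mul_le_mul ?_ (hB _) (norm_nonneg _) (by positivity)
          refine mul_le_mul_of_nonneg_left ?_ hC0
          rw [pow_succ]
          exact mul_le_of_le_one_right (by positivity) hl1.le
      _ = C * B * l ^ n := by ring
  have hb2 : ∀ n x, ‖g2 n x‖ ≤ C * B * l ^ n := fun n x => by
    show ‖(mvL A ^ n) (S (e (f.symm^[n + 1] x)))‖ ≤ _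
    rw [mvL_iter]
    refine (hS n _).trans ?_
    calc C * l ^ n * ‖e (f.symm^[n + 1] x)‖ ≤ C * l ^ n * B :=
          mul_le_mul_of_nonneg_left (hB _) (by positivity)
      _ = C * B * l ^ n := by ring
  have hs1 : ∀ x, Summable fun n => g1 n x := fun x =>
    Summable.of_norm_bounded hsum fun n => hb1 n x
  have hs2 : ∀ x, Summable fun n => g2 n x := fun x =>
    Summable.of_norm_bounded hsum fun n => hb2 n x
  refine ⟨fun x => (∑' n, g1 n x) - ∑' n, g2 n x,
    (continuous_tsum hc1 hsum hb1).sub (continuous_tsum hc2 hsum hb2), fun x => ?_⟩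
  -- the two halves
  have e1 : mvL A (∑' n, g1 n x) = U (e x) + ∑' n, g1 n (f x) := by
    rw [(mvL A).map_tsum (hs1 x)]
    have h1 : ∀ n, mvL A (g1 n x) = (mvL A' ^ n) (U (e (f^[n] x))) := fun n => by
      show mvL A ((mvL A' ^ (n + 1)) (U (e (f^[n] x)))) = _
      rw [pow_succ', ContinuousLinearMap.mul_apply, mvL_apply, mvL_apply, mv_mv hA.mul]
    simp_rw [h1]
    have h2 : Summable fun n => (mvL A' ^ n) (U (e (f^[n] x))) := by
      have := (mvL A).summable (hs1 x)
      simp_rw [h1] at this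
      exact this
    rw [h2.tsum_eq_zero_add]
    congr 1
  have e2 : ∑' n, g2 n (f x) = S (e x) + mvL A (∑' n, g2 n x) := by
    rw [(mvL A).map_tsum (hs2 x), (hs2 (f x)).tsum_eq_zero_add]
    congr 1
    · show (mvL A ^ 0) (S (e (f.symm^[0 + 1] (f x)))) = _
      rw [pow_zero, zero_add, Function.iterate_one, f.symm_apply_apply]
      rfl
    · refine tsum_congr fun n => ?_
      show (mvL A ^ (n + 1)) (S (e (f.symm^[n + 1 + 1] (f x)))) =
        mvL A ((mvL A ^ n) (S (e (f.symm^[n + 1] x))))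
      rw [pow_succ', ContinuousLinearMap.mul_apply, Function.iterate_succ_apply (f.symm) (n + 1),
        f.symm_apply_apply]
  show mvL A ((∑' n, g1 n x) - ∑' n, g2 n x) = _
  rw [map_sub, e1]
  show _ = (∑' n, g1 n (f x)) - (∑' n, g2 n (f x)) + e x
  have h3 : U (e x) = e x - S (e x) := eq_sub_of_add_eq' (hSU (e x))
  rw [e2, h3]
  abel

end Pool.Agent.J4H55.HT
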