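import Pool.Agent.J4H56.HT.Stm

/-!
# Project HT: piece (T2), the torus is uniformly locally path connected and simply connected
-/

set_option autoImplicit false

open Filter Topology Set Metric unitInterval

namespace Pool.Agent.J4H55.HT

open Pool.Agent.J4H56.HT Pool.Agent.H789R2.GP

/-- the representative in `[-1/2, 1/2)` -/
noncomputable def sec (x : AddCircle (1 : ℝ)) : ℝ :=
  (AddCircle.equivIco (1 : ℝ) (-1 / 2) x : ℝ)

theorem coe_sec (x : AddCircle (1 : ℝ)) : ((sec x : ℝ) : AddCircle (1 : ℝ)) = x :=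
  AddCircle.coe_equivIco

theorem abs_sec (x : AddCircle (1 : ℝ)) : |sec x| = ‖x‖ := by
  have h1 : sec x ∈ Ico (-1 / 2 : ℝ) (-1 / 2 + 1) := (AddCircle.equivIco (1 : ℝ) (-1 / 2) x).2
  have h2 : |sec x| ≤ |(1 : ℝ)| / 2 := by
    rw [abs_one, abs_le]
    constructor <;> linarith [h1.1, h1.2]
  rw [← (AddCircle.norm_coe_eq_abs_iff (1 : ℝ) one_ne_zero).2 h2, coe_sec]

theorem cont_sec {x : AddCircle (1 : ℝ)} (h : ‖x‖ < 1 / 2) : ContinuousAt sec x := by
  have h1 : x ≠ ((-1 / 2 : ℝ) : AddCircle (1 : ℝ)) := by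
    rintro rfl
    rw [(AddCircle.norm_coe_eq_abs_iff (1 : ℝ) one_ne_zero).2 (by rw [abs_one]; norm_num [abs_le])]
      at h
    norm_num [abs_lt] at h
  exact continuous_subtype_val.continuousAt.comp (AddCircle.continuousAt_equivIco (1 : ℝ) _ h1)

/-- the short vector from `a` to `x` -/
noncomputable def dv {k : ℕ} (a x : T k) : Fin k → ℝ := fun i => sec (x i - a i)

theorem norm_lt_iff {k : ℕ} {v : Fin k → ℝ} {δ : ℝ} (h : 0 < δ) :
    ‖v‖ < δ ↔ ∀ i, |v i| < δ := pi_norm_lt_iff h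

theorem ball_iff {k : ℕ} {a x : T k} {δ : ℝ} (h : 0 < δ) :
    x ∈ ball a δ ↔ ∀ i, ‖x i - a i‖ < δ := by
  rw [mem_ball, dist_pi_lt_iff h]
  simp only [dist_eq_norm]

theorem norm_dv {k : ℕ} {a x : T k} {δ : ℝ} (h : 0 < δ) (hx : x ∈ ball a δ) : ‖dv a x‖ < δ := by
  rw [norm_lt_iff h]
  intro i
  show |sec (x i - a i)| < δ
  rw [abs_sec]
  exact (ball_iff h).1 hx i

theorem add_dv {k : ℕ} (a x : T k) : a + pr (dv a x) = x := by
  funext i
  show a i + ((sec (x i - a i) : ℝ) : AddCircle (1 : ℝ)) = x i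
  rw [coe_sec]
  abel

theorem pr_mem {k : ℕ} (a : T k) {v : Fin k → ℝ} {δ : ℝ} (h : 0 < δ) (hv : ‖v‖ < δ) :
    a + pr v ∈ ball a δ := by
  rw [ball_iff h]
  intro i
  have h1 : (a + pr v) i - a i = ((v i : ℝ) : AddCircle (1 : ℝ)) := by
    show a i + ((v i : ℝ) : AddCircle (1 : ℝ)) - a i = _
    abel
  rw [h1]
  refine lt_of_le_of_lt ?_ ((norm_lt_iff h).1 hv i)
  exact QuotientAddGroup.norm_mk_le_norm

theorem cont_pr {k : ℕ} : Continuous (pr : (Fin k → ℝ) → T k) :=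
  continuous_pi fun i => (AddCircle.continuous_mk' (1 : ℝ)).comp (continuous_apply i)

theorem cont_dv {k : ℕ} {Z : Type*} [TopologicalSpace Z] (a : T k) {κ : Z → T k}
    (hκ : Continuous κ) (h : ∀ z, κ z ∈ ball a (1 / 2)) : Continuous fun z => dv a (κ z) := by
  refine continuous_pi fun i => continuous_iff_continuousAt.2 fun z => ?_
  have h1 : ContinuousAt sec (κ z i - a i) := cont_sec ((ball_iff (by norm_num)).1 (h z) i)
  have h2 : ContinuousAt (fun z => κ z i - a i) z :=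
    ((continuous_apply i).comp hκ).continuousAt.sub continuousAt_const
  exact ContinuousAt.comp (g := sec) (f := fun z => κ z i - a i) h1 h2

theorem seg_lt {k : ℕ} {v w : Fin k → ℝ} {δ : ℝ} (hv : ‖v‖ < δ) (hw : ‖w‖ < δ) (t : I) :
    ‖(1 - (t : ℝ)) • v + (t : ℝ) • w‖ < δ := by
  have h0 := t.2.1
  have h1 := t.2.2
  have h : (1 - (t : ℝ)) • v + (t : ℝ) • w ∈ ball (0 : Fin k → ℝ) δ :=
    convex_ball (0 : Fin k → ℝ) δ (mem_ball_zero_iff.2 hv) (mem_ball_zero_iff.2 hw)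
      (sub_nonneg.2 h1) h0 (by ring)
  exact mem_ball_zero_iff.1 h

theorem t_T2 : S_T2 := by
  intro k
  refine ⟨fun ε hε => ⟨ε, hε, fun a x y hx hy => ?_⟩, fun ε hε => ⟨min ε (1 / 2), by positivity,
    fun a κ κ' h0 h1 hκ hκ' => ?_⟩⟩
  · refine ⟨⟨fun t => a + pr ((1 - (t : ℝ)) • dv a x + (t : ℝ) • dv a y), ?_⟩, ?_, ?_, ?_⟩
    · refine continuous_const.add (cont_pr.comp ?_)
      fun_prop
    · show a + pr ((1 - ((0 : I) : ℝ)) • dv a x + ((0 : I) : ℝ) • dv a y) = x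
      rw [Set.Icc.coe_zero, sub_zero, one_smul, zero_smul, add_zero, add_dv]
    · show a + pr ((1 - ((1 : I) : ℝ)) • dv a x + ((1 : I) : ℝ) • dv a y) = y
      rw [Set.Icc.coe_one, sub_self, one_smul, zero_smul, zero_add, add_dv]
    · intro t
      exact pr_mem a hε (seg_lt (norm_dv hε hx) (norm_dv hε hy) t)
  · have hδ : (0 : ℝ) < min ε (1 / 2) := by positivity
    have c1 : Continuous fun t => dv a (κ t) :=
      cont_dv a κ.continuous fun t => ball_subset_ball (min_le_right _ _) (hκ t)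
    have c2 : Continuous fun t => dv a (κ' t) :=
      cont_dv a κ'.continuous fun t => ball_subset_ball (min_le_right _ _) (hκ' t)
    refine ⟨⟨fun p => a + pr ((1 - (p.1 : ℝ)) • dv a (κ p.2) + (p.1 : ℝ) • dv a (κ' p.2)), ?_⟩,
      ?_, ?_, ?_, ?_, ?_⟩
    · refine continuous_const.add (cont_pr.comp ?_)
      have c3 : Continuous fun p : I × I => dv a (κ p.2) := c1.comp continuous_snd
      have c4 : Continuous fun p : I × I => dv a (κ' p.2) := c2.comp continuous_snd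
      have c5 : Continuous fun p : I × I => (p.1 : ℝ) := continuous_subtype_val.comp continuous_fst
      exact ((continuous_const.sub c5).smul c3).add (c5.smul c4)
    · intro t
      show a + pr ((1 - ((0 : I) : ℝ)) • dv a (κ t) + ((0 : I) : ℝ) • dv a (κ' t)) = κ t
      rw [Set.Icc.coe_zero, sub_zero, one_smul, zero_smul, add_zero, add_dv]
    · intro t
      show a + pr ((1 - ((1 : I) : ℝ)) • dv a (κ t) + ((1 : I) : ℝ) • dv a (κ' t)) = κ' t
      rw [Set.Icc.coe_one, sub_self, one_smul, zero_smul, zero_add, add_dv]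
    · intro s
      show a + pr ((1 - (s : ℝ)) • dv a (κ 0) + (s : ℝ) • dv a (κ' 0)) = κ 0
      rw [← h0, ← add_smul, sub_add_cancel, one_smul, add_dv]
    · intro s
      show a + pr ((1 - (s : ℝ)) • dv a (κ 1) + (s : ℝ) • dv a (κ' 1)) = κ 1
      rw [← h1, ← add_smul, sub_add_cancel, one_smul, add_dv]
    · intro p
      exact ball_subset_ball (min_le_left _ _)
        (pr_mem a hδ (seg_lt (norm_dv hδ (hκ p.2)) (norm_dv hδ (hκ' p.2)) p.1))

end Pool.Agent.J4H55.HT
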